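import Pool.Agent.Helper63.SIMD.Pack

/-!
# Loops over equal keys of packed key lists

Keys are below `2 ^ (W - 1)` and lie in fields of `W` bits. `forHits` tests a property `p i` for all `i < N` with
key `i` equal to `k`. `forPairs` does it for all pairs `(i, j)` of two key lists with equal keys (one packed
comparison of the whole outer product, pair `(i, j)` has the index `N' * i + j`). `forAll2` is the double loop over
two lists of blocks. Everything is written with raw recursors; the position of a set bit is computed without proof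
(a wrong position could only make the test fail or not stop), so the soundness theorems need no facts about it.
-/

namespace Pool.Agent.Helper10.TY

open Pool.Agent.Helper63.SIMD

/-- top bits of the zero fields of `x` (`H` = top bits of all fields) -/
noncomputable def zm (H x : ℕ) : ℕ := Nat.land (Nat.sub H x) H

/-- property `p i` for all set bits `W * (i + 1) - 1` of `x` (false if another bit is set). `R` = ones in all
fields, `T` = power of two above `x`, `M = 2 ^ W - 1`: `x &&& (T - x)` is the lowest set bit `e`, the number of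
fields of `R &&& (e - 1)` is the index of its field plus one. -/
noncomputable def forBits (R T M W : ℕ) (p : ℕ → Bool) (f : ℕ) : ℕ → Bool :=
  @Nat.rec (fun _ => ℕ → Bool) (fun x => Nat.beq x 0)
    (fun _ ih x => @Bool.rec (fun _ => Bool)
      (@Nat.rec (fun _ => Bool) false
        (fun i _ => @Bool.rec (fun _ => Bool) false
          (ih (Nat.xor x (Nat.shiftLeft 1 (Nat.pred (Nat.mul W (Nat.succ i)))))) (p i))
        (Nat.mod (Nat.land R (Nat.pred (Nat.land x (Nat.sub T x)))) M))
      true (Nat.beq x 0)) f

theorem forBits_succ {R T M W : ℕ} {p : ℕ → Bool} {f x : ℕ} :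
    forBits R T M W p (f + 1) x = @Bool.rec (fun _ => Bool)
      (@Nat.rec (fun _ => Bool) false
        (fun i _ => @Bool.rec (fun _ => Bool) false
          (forBits R T M W p f (Nat.xor x (Nat.shiftLeft 1 (Nat.pred (Nat.mul W (Nat.succ i)))))) (p i))
        (Nat.mod (Nat.land R (Nat.pred (Nat.land x (Nat.sub T x)))) M))
      true (Nat.beq x 0) := rfl

theorem forBits_sound {R T M W : ℕ} {p : ℕ → Bool} (hW : 0 < W) (f : ℕ) :
    ∀ x, forBits R T M W p f x = true → ∀ i, x.testBit (W * (i + 1) - 1) = true → p i = true := by
  induction f with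
  | zero =>
    intro x h i hi
    have h0 : x = 0 := Nat.eq_of_beq_eq_true h
    subst h0
    simp at hi
  | succ f ih =>
    intro x h i hi
    rw [forBits_succ] at h
    generalize hb : Nat.beq x 0 = bb at h
    cases bb with
    | true =>
      have h0 : x = 0 := Nat.eq_of_beq_eq_true hb
      subst h0
      simp at hi
    | false =>
      generalize hm : (Nat.mod (Nat.land R (Nat.pred (Nat.land x (Nat.sub T x)))) M) = m at h
      cases m with
      | zero => exact absurd h (by simp)
      | succ j =>
        change (@Bool.rec (fun _ => Bool) false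
          (forBits R T M W p f (Nat.xor x (Nat.shiftLeft 1 (Nat.pred (Nat.mul W (Nat.succ j)))))) (p j)) = true at h
        generalize hp : p j = pj at h
        cases pj with
        | false => exact absurd h (by simp)
        | true =>
          by_cases hij : i = j
          · rw [hij]; exact hp
          · refine ih _ h i ?_
            have e1 : Nat.xor x (Nat.shiftLeft 1 (Nat.pred (Nat.mul W (Nat.succ j)))) =
                x ^^^ (1 <<< (W * (j + 1) - 1)) := rfl
            rw [e1, Nat.testBit_xor, hi, Nat.one_shiftLeft, Nat.testBit_two_pow_of_ne]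
            · rfl
            · intro h5
              have h6 : W * (j + 1) = W * (i + 1) := by
                have h7 : 0 < W * (j + 1) := Nat.mul_pos hW (by omega)
                have h8 : 0 < W * (i + 1) := Nat.mul_pos hW (by omega)
                omega
              have h9 := Nat.eq_of_mul_eq_mul_left hW h6
              omega

/-- the zero fields of a packed number are seen by `zm` -/
theorem zm_testBit {W N : ℕ} {a : ℕ → ℕ} (hW : 0 < W) (ha : ∀ i < N, a i < 2 ^ (W - 1)) {i : ℕ} (hi' : i < N)
    (h0 : a i = 0) : (zm (hi W N) (pk W N a)).testBit (W * (i + 1) - 1) = true := by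
  have hp := Nat.two_pow_pos (W - 1)
  have h2 : 2 ^ W = 2 ^ (W - 1) + 2 ^ (W - 1) := by
    obtain ⟨w, rfl⟩ := Nat.exists_eq_succ_of_ne_zero hW.ne'
    rw [Nat.succ_sub_one, pow_succ]; ring
  have hH : hi W N = pk W N (fun _ => 2 ^ (W - 1)) := mul_rep hW _
  have e : zm (hi W N) (pk W N a) = pk W N (fun i => (2 ^ (W - 1) - a i) &&& 2 ^ (W - 1)) := by
    show (hi W N - pk W N a) &&& hi W N = _
    rw [hH, pk_sub (fun i hi => (ha i hi).le), pk_land]
    · intro i _
      show 2 ^ (W - 1) - a i < 2 ^ W
      omega
    · intro i _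
      show 2 ^ (W - 1) < 2 ^ W
      omega
  have hlt : ∀ i < N, (fun i => (2 ^ (W - 1) - a i) &&& 2 ^ (W - 1)) i < 2 ^ W := fun i _ =>
    lt_of_le_of_lt Nat.and_le_right (by omega)
  have h3 := fld_pk hlt hi'
  rw [← e] at h3
  simp only [h0, Nat.sub_zero, Nat.and_self] at h3
  have h4 : (fld W (zm (hi W N) (pk W N a)) i).testBit (W - 1) = true := by
    rw [h3]; exact Nat.testBit_two_pow_self
  unfold fld at h4
  rw [Nat.testBit_mod_two_pow, Nat.testBit_div_two_pow] at h4
  have h5 := (Bool.and_eq_true _ _ ▸ h4).2
  have e2 : W * (i + 1) - 1 = W - 1 + W * i := by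
    rw [Nat.mul_add, mul_one]; omega
  rw [e2]
  exact h5

/-- the test over all positions of equal fields of `X` and `Y` -/
noncomputable def forEq (W M R T H F : ℕ) (p : ℕ → Bool) (X Y : ℕ) : Bool :=
  forBits R T M W p F (zm H (Nat.xor X Y))

theorem forEq_sound {W M R T F N : ℕ} {p : ℕ → Bool} {a b : ℕ → ℕ} (hW : 0 < W)
    (ha : ∀ i < N, a i < 2 ^ (W - 1)) (hb : ∀ i < N, b i < 2 ^ (W - 1))
    (h : forEq W M R T (hi W N) F p (pk W N a) (pk W N b) = true) :
    ∀ i < N, a i = b i → p i = true := by
  intro i hi' hab
  have h2 : 2 ^ (W - 1) ≤ 2 ^ W := Nat.pow_le_pow_right (by norm_num) (by omega)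
  refine forBits_sound hW F _ h i ?_
  have e : Nat.xor (pk W N a) (pk W N b) = pk W N (fun i => a i ^^^ b i) :=
    pk_xor (fun i hi => lt_of_lt_of_le (ha i hi) h2) (fun i hi => lt_of_lt_of_le (hb i hi) h2)
  rw [e]
  refine zm_testBit hW (fun i hi => Nat.xor_lt_two_pow (ha i hi) (hb i hi)) hi' ?_
  show a i ^^^ b i = 0
  rw [hab, Nat.xor_self]

/-- property `p` of all `i < N` with key `k` (`M = 2 ^ W - 1`, `R = rep W N`, `T = 2 ^ (W * N)`, `H = hi W N`,
`F` = fuel, any number that is at least the number of hits, best a large one) -/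
noncomputable def forHits (W M R T H F : ℕ) (p : ℕ → Bool) (K k : ℕ) : Bool :=
  forEq W M R T H F p K (Nat.mul k R)

theorem forHits_sound {W M T F N K k : ℕ} {p : ℕ → Bool} (hW : 0 < W) (hK : K < 2 ^ (W * N))
    (hf : ∀ i < N, fld W K i < 2 ^ (W - 1)) (hk : k < 2 ^ (W - 1))
    (h : forHits W M (rep W N) T (hi W N) F p K k = true) :
    ∀ i < N, fld W K i = k → p i = true := by
  have e : Nat.mul k (rep W N) = pk W N (fun _ => k) := mul_rep hW k
  unfold forHits at h
  rw [e] at h
  have h1 : forEq W M (rep W N) T (hi W N) F p (pk W N (fld W K)) (pk W N (fun _ => k)) = true := by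
    rw [pk_fld hK]; exact h
  exact forEq_sound hW hf (fun _ _ => hk) h1

/-- all pairs of equal keys: `X` = the keys of the first list as rows, `Y` = the keys of the second as columns -/
theorem forPairs_sound {W M R T F N N' : ℕ} {p : ℕ → Bool} {a b : ℕ → ℕ} (hW : 0 < W) (hN' : 0 < N')
    (ha : ∀ i < N, a i < 2 ^ (W - 1)) (hb : ∀ j < N', b j < 2 ^ (W - 1))
    (h : forEq W M R T (hi W (N * N')) F p (pk (W * N') N a * rep W N') (rep (W * N') N * pk W N' b) = true) :
    ∀ i < N, ∀ j < N', a i = b j → p (N' * i + j) = true := by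
  rw [rows hW, cols hW hN'] at h
  intro i hi' j hj hab
  have hlt : N' * i + j < N * N' := by
    have h4 : N' * (i + 1) ≤ N' * N := Nat.mul_le_mul_left _ hi'
    rw [Nat.mul_add, mul_one] at h4
    rw [mul_comm N N']
    omega
  refine forEq_sound hW (fun k hk => ?_) (fun k _ => hb _ (Nat.mod_lt _ hN')) h (N' * i + j) hlt ?_
  · exact ha _ (Nat.div_lt_of_lt_mul (by rw [mul_comm]; exact hk))
  · show a ((N' * i + j) / N') = b ((N' * i + j) % N')
    rw [Nat.mul_add_div hN', Nat.div_eq_of_lt hj, Nat.add_zero, Nat.mul_add_mod, Nat.mod_eq_of_lt hj, hab]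

/-! ## Loops over lists -/

/-- all elements of a list -/
noncomputable def forAll {α : Type} (q : α → Bool) (l : List α) : Bool :=
  @List.rec α (fun _ => Bool) true (fun a _ ih => @Bool.rec (fun _ => Bool) false ih (q a)) l

theorem forAll_sound {α : Type} {q : α → Bool} {l : List α} (h : forAll q l = true) : ∀ a ∈ l, q a = true := by
  induction l with
  | nil => simp
  | cons a l ih =>
    have h' : (@Bool.rec (fun _ => Bool) false (forAll q l) (q a)) = true := h
    generalize hq : q a = b at h'
    cases b with
    | false => exact absurd h' (by simp)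
    | true =>
      intro c hc
      rcases List.mem_cons.1 hc with rfl | hc
      · exact hq
      · exact ih h' c hc

/-- all pairs of elements of two lists -/
noncomputable def forAll2 {α β : Type} (q : α → β → Bool) (l : List α) (m : List β) : Bool :=
  forAll (fun a => forAll (q a) m) l

theorem forAll2_sound {α β : Type} {q : α → β → Bool} {l : List α} {m : List β} (h : forAll2 q l m = true) :
    ∀ a ∈ l, ∀ b ∈ m, q a b = true :=
  fun a ha b hb => forAll_sound (forAll_sound h a ha) b hb

end Pool.Agent.Helper10.TY
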